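import Pool.Agent.H11.NS.Targets

/-!
Module F1 of ns_modules: bounded supports of an ultraproduct action of a simple group.
-/

set_option autoImplicit false

open Equiv (Perm)

namespace Pool.Agent.H69.NS

open Pool.Agent.H11.NS

theorem pf_f1 : T_F1 := by
  intro G _ _ I U n act hmul x₀ hx B₀ hB y
  have h1 : ∀ᶠ i in (U : Filter I), act i 1 = 1 := by
    filter_upwards [hmul 1 1] with i h
    rw [mul_one] at h
    exact mul_eq_left.mp h.symm
  have hinv : ∀ y : G, ∀ᶠ i in (U : Filter I), act i y⁻¹ = (act i y)⁻¹ := by
    intro y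
    filter_upwards [h1, hmul y y⁻¹] with i a b
    rw [mul_inv_cancel, a] at b
    exact eq_inv_of_mul_eq_one_right b.symm
  let N : Subgroup G :=
    { carrier := {y | ∃ B : ℕ, ∀ᶠ i in (U : Filter I), (act i y).support.card ≤ B}
      mul_mem' := by
        rintro a b ⟨A, hA⟩ ⟨B, hB⟩
        refine ⟨A + B, ?_⟩
        filter_upwards [hA, hB, hmul a b] with i h2 h3 h4
        rw [h4]
        calc (act i a * act i b).support.card
            ≤ ((act i a).support ⊔ (act i b).support).card :=
              Finset.card_le_card (Equiv.Perm.support_mul_le _ _)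
          _ ≤ (act i a).support.card + (act i b).support.card := Finset.card_union_le _ _
          _ ≤ A + B := Nat.add_le_add h2 h3
      one_mem' := by
        refine ⟨0, ?_⟩
        filter_upwards [h1] with i h2
        rw [h2, Equiv.Perm.support_one]
        simp
      inv_mem' := by
        rintro a ⟨A, hA⟩
        refine ⟨A, ?_⟩
        filter_upwards [hA, hinv a] with i h2 h3
        rw [h3, Equiv.Perm.support_inv]
        exact h2 }
  have hN : N.Normal := by
    refine ⟨?_⟩
    rintro a ⟨A, hA⟩ g
    refine ⟨A, ?_⟩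
    filter_upwards [hA, hinv g, hmul (g * a) g⁻¹, hmul g a] with i h2 h3 h4 h5
    rw [h4, h5, h3, Equiv.Perm.card_support_conj]
    exact h2
  have hx₀ : x₀ ∈ N := ⟨B₀, hB⟩
  have htop : N = ⊤ := by
    rcases hN.eq_bot_or_eq_top with h | h
    · rw [h, Subgroup.mem_bot] at hx₀
      exact absurd hx₀ hx
    · exact h
  have hy : y ∈ N := by rw [htop]; exact Subgroup.mem_top y
  exact hy

end Pool.Agent.H69.NS
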