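import Pool.Agent.H11.NS.Targets

/-!
Module OR1 of ns_modules: a product of disjoint three-cycles which rotates three cycles.
-/

set_option autoImplicit false

open Equiv (Perm swap)

namespace Pool.Agent.H69.NS

open Pool.Agent.H11.NS

theorem prod_fix {Ω : Type} (l : List (Perm Ω)) (p : Ω) (h : ∀ f ∈ l, f p = p) :
    l.prod p = p := by
  induction l with
  | nil => simp
  | cons a t ih =>
    rw [List.prod_cons, Equiv.Perm.mul_apply, ih (fun f hf => h f (List.mem_cons_of_mem _ hf)),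
      h a List.mem_cons_self]

theorem conj_aux {Ω : Type} [Fintype Ω] [DecidableEq Ω] (γ T c₁ c₂ c₃ : Perm Ω) (x y z : Ω)
    (hs1 : ∀ q, q ∈ c₁.support ↔ ∃ j : ℕ, (γ ^ j) x = q)
    (hs2 : ∀ q, q ∈ c₂.support ↔ ∃ j : ℕ, (γ ^ j) y = q)
    (hs3 : ∀ q, q ∈ c₃.support ↔ ∃ j : ℕ, (γ ^ j) z = q)
    (hc1 : ∀ q ∈ c₁.support, c₁ q = γ q) (hc2 : ∀ q ∈ c₂.support, c₂ q = γ q)
    (hTx : ∀ j : ℕ, T ((γ ^ j) x) = (γ ^ j) y) (hTy : ∀ j : ℕ, T ((γ ^ j) y) = (γ ^ j) z)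
    (hTz : ∀ j : ℕ, T ((γ ^ j) z) = (γ ^ j) x)
    (hT : ∀ q, q ∉ c₁.support → q ∉ c₂.support → q ∉ c₃.support → T q = q)
    (d12 : Equiv.Perm.Disjoint c₁ c₂) (d23 : Equiv.Perm.Disjoint c₂ c₃) :
    T * c₁ * T⁻¹ = c₂ := by
  rw [mul_inv_eq_iff_eq_mul]
  have dis : ∀ {a b : Perm Ω}, Equiv.Perm.Disjoint a b → ∀ q, q ∈ a.support → b q = q := by
    intro a b h q hq
    rcases h q with h1 | h1
    · exact absurd h1 (Equiv.Perm.mem_support.mp hq)
    · exact h1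
  ext q
  rw [Equiv.Perm.mul_apply, Equiv.Perm.mul_apply]
  by_cases h1 : q ∈ c₁.support
  · obtain ⟨j, hj⟩ := (hs1 q).mp h1
    have hsucc : ∀ w, γ ((γ ^ j) w) = (γ ^ (j + 1)) w := by
      intro w; rw [pow_succ', Equiv.Perm.mul_apply]
    rw [hc1 q h1, ← hj, hTx j, hc2 _ ((hs2 _).mpr ⟨j, rfl⟩), hsucc, hsucc, hTx (j + 1)]
  · rw [Equiv.Perm.notMem_support.mp h1]
    by_cases h2 : q ∈ c₂.support
    · obtain ⟨j, hj⟩ := (hs2 q).mp h2
      rw [← hj, hTy j, dis d23.symm _ ((hs3 _).mpr ⟨j, rfl⟩)]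
    · by_cases h3 : q ∈ c₃.support
      · obtain ⟨j, hj⟩ := (hs3 q).mp h3
        rw [← hj, hTz j, dis d12 _ ((hs1 _).mpr ⟨j, rfl⟩)]
      · rw [hT q h1 h2 h3, Equiv.Perm.notMem_support.mp h2]

theorem support_aux {Ω : Type} [Fintype Ω] [DecidableEq Ω] (γ c : Perm Ω) (x : Ω)
    (hc : c ∈ γ.cycleFactorsFinset) (hx : x ∈ c.support) (q : Ω) :
    q ∈ c.support ↔ ∃ j : ℕ, (γ ^ j) x = q := by
  have h1 : c = γ.cycleOf x := Equiv.Perm.cycle_is_cycleOf hx hc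
  have h2 : γ x ≠ x := by
    have := (Equiv.Perm.mem_cycleFactorsFinset_iff.mp hc).2 x hx
    rw [← this]
    exact Equiv.Perm.mem_support.mp hx
  rw [h1, Equiv.Perm.mem_support_cycleOf_iff' h2]
  constructor
  · intro h
    obtain ⟨i, -, hi⟩ := h.exists_pow_eq'
    exact ⟨i, hi⟩
  · rintro ⟨j, hj⟩
    exact ⟨j, by rw [zpow_natCast]; exact hj⟩

theorem inj_aux {Ω : Type} (γ : Perm Ω) (ℓ : ℕ) (hℓ : ℓ.Prime) (hγ : γ ^ ℓ = 1) (x : Ω)
    (hx : γ x ≠ x) (i j : ℕ) (hi : i < ℓ) (hj : j < ℓ) (h : (γ ^ i) x = (γ ^ j) x) : i = j := by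
  wlog hij : i ≤ j generalizing i j with H
  · exact (H j i hj hi h.symm (by omega)).symm
  by_contra hne
  have hk : (γ ^ (j - i)) x = x := by
    have h1 : γ ^ j = γ ^ i * γ ^ (j - i) := by rw [← pow_add]; congr 1; omega
    rw [h1, Equiv.Perm.mul_apply] at h
    exact ((γ ^ i).injective h).symm
  have hp1 : Function.IsPeriodicPt γ (j - i) x := by
    unfold Function.IsPeriodicPt Function.IsFixedPt
    rw [Equiv.Perm.iterate_eq_pow]
    exact hk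
  have hp2 : Function.IsPeriodicPt γ ℓ x := by
    unfold Function.IsPeriodicPt Function.IsFixedPt
    rw [Equiv.Perm.iterate_eq_pow, hγ]
    rfl
  have hp3 := hp1.gcd hp2
  have hg : (j - i).gcd ℓ = 1 := by
    rw [Nat.gcd_comm]
    exact (Nat.Prime.coprime_iff_not_dvd hℓ).mpr
      (fun hd => by have := Nat.le_of_dvd (by omega) hd; omega)
  rw [hg] at hp3
  apply hx
  have : (γ ^ 1) x = x := by
    have h4 : γ^[1] x = x := hp3
    rw [Equiv.Perm.iterate_eq_pow] at h4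
    exact h4
  simpa using this

theorem pf_or1 : T_OR1 := by
  intro Ω _ _ γ ℓ hℓ hγ c₁ c₂ c₃ hc1 hc2 hc3 h12 h13 h23
  have hℓ0 : 0 < ℓ := hℓ.pos
  have D12 := Equiv.Perm.cycleFactorsFinset_pairwise_disjoint γ hc1 hc2 h12
  have D13 := Equiv.Perm.cycleFactorsFinset_pairwise_disjoint γ hc1 hc3 h13
  have D23 := Equiv.Perm.cycleFactorsFinset_pairwise_disjoint γ hc2 hc3 h23
  obtain ⟨hcy1, ha1⟩ := Equiv.Perm.mem_cycleFactorsFinset_iff.mp hc1
  obtain ⟨hcy2, ha2⟩ := Equiv.Perm.mem_cycleFactorsFinset_iff.mp hc2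
  obtain ⟨hcy3, ha3⟩ := Equiv.Perm.mem_cycleFactorsFinset_iff.mp hc3
  have nonem : ∀ c : Perm Ω, c.IsCycle → ∃ x, x ∈ c.support := by
    intro c hc
    obtain ⟨x, hx, -⟩ := hc
    exact ⟨x, Equiv.Perm.mem_support.mpr hx⟩
  obtain ⟨x, hx⟩ := nonem c₁ hcy1
  obtain ⟨y, hy⟩ := nonem c₂ hcy2
  obtain ⟨z, hz⟩ := nonem c₃ hcy3
  have hs1 := support_aux γ c₁ x hc1 hx
  have hs2 := support_aux γ c₂ y hc2 hy
  have hs3 := support_aux γ c₃ z hc3 hz
  have dis : ∀ {a b : Perm Ω}, Equiv.Perm.Disjoint a b → ∀ q, q ∈ a.support → q ∈ b.support →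
      False := by
    intro a b h q hq hq'
    rcases h q with h1 | h1
    · exact Equiv.Perm.mem_support.mp hq h1
    · exact Equiv.Perm.mem_support.mp hq' h1
  have hgx : γ x ≠ x := by rw [← ha1 x hx]; exact Equiv.Perm.mem_support.mp hx
  have hgy : γ y ≠ y := by rw [← ha2 y hy]; exact Equiv.Perm.mem_support.mp hy
  have hgz : γ z ≠ z := by rw [← ha3 z hz]; exact Equiv.Perm.mem_support.mp hz
  -- points in different cycles
  have nxy : ∀ i j : ℕ, (γ ^ i) x ≠ (γ ^ j) y := fun i j h =>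
    dis D12 _ ((hs1 _).mpr ⟨i, rfl⟩) ((hs2 _).mpr ⟨j, h.symm⟩)
  have nxz : ∀ i j : ℕ, (γ ^ i) x ≠ (γ ^ j) z := fun i j h =>
    dis D13 _ ((hs1 _).mpr ⟨i, rfl⟩) ((hs3 _).mpr ⟨j, h.symm⟩)
  have nyz : ∀ i j : ℕ, (γ ^ i) y ≠ (γ ^ j) z := fun i j h =>
    dis D23 _ ((hs2 _).mpr ⟨i, rfl⟩) ((hs3 _).mpr ⟨j, h.symm⟩)
  have exy : x ≠ y := by have := nxy 0 0; simpa using this
  have exz : x ≠ z := by have := nxz 0 0; simpa using this
  have eyz : y ≠ z := by have := nyz 0 0; simpa using this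
  -- the three-cycle
  set τ : Perm Ω := swap x z * swap x y with hτ
  have hτ3 : τ.IsThreeCycle := Equiv.Perm.isThreeCycle_swap_mul_swap_same exz exy eyz.symm
  have tx : τ x = y := by
    rw [hτ, Equiv.Perm.mul_apply, Equiv.swap_apply_left, Equiv.swap_apply_of_ne_of_ne exy.symm eyz]
  have ty : τ y = z := by
    rw [hτ, Equiv.Perm.mul_apply, Equiv.swap_apply_right, Equiv.swap_apply_left]
  have tz : τ z = x := by
    rw [hτ, Equiv.Perm.mul_apply, Equiv.swap_apply_of_ne_of_ne exz.symm eyz.symm,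
      Equiv.swap_apply_right]
  have tf : ∀ p, p ≠ x → p ≠ y → p ≠ z → τ p = p := by
    intro p h1 h2 h3
    rw [hτ, Equiv.Perm.mul_apply, Equiv.swap_apply_of_ne_of_ne h1 h2,
      Equiv.swap_apply_of_ne_of_ne h1 h3]
  have hconj : ∀ (j : ℕ) (p : Ω), (γ ^ j * τ * (γ ^ j)⁻¹) ((γ ^ j) p) = (γ ^ j) (τ p) := by
    intro j p
    rw [Equiv.Perm.mul_apply, Equiv.Perm.mul_apply]
    simp
  have hfix : ∀ (j : ℕ) (p : Ω), p ≠ (γ ^ j) x → p ≠ (γ ^ j) y → p ≠ (γ ^ j) z →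
      (γ ^ j * τ * (γ ^ j)⁻¹) p = p := by
    intro j p h1 h2 h3
    have hp : p = (γ ^ j) ((γ ^ j)⁻¹ p) := by simp
    rw [hp, hconj, tf]
    · intro h; exact h1 (by rw [hp, h])
    · intro h; exact h2 (by rw [hp, h])
    · intro h; exact h3 (by rw [hp, h])
  have hdisj : ∀ i < ℓ, ∀ j < ℓ, i ≠ j → Equiv.Perm.Disjoint (γ ^ i * τ * (γ ^ i)⁻¹)
      (γ ^ j * τ * (γ ^ j)⁻¹) := by
    intro i hi j hj hij p
    by_cases h1 : p = (γ ^ i) x
    · right
      refine hfix j p ?_ ?_ ?_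
      · intro h; exact hij (inj_aux γ ℓ hℓ hγ x hgx i j hi hj (h1 ▸ h))
      · intro h; exact nxy i j (h1 ▸ h)
      · intro h; exact nxz i j (h1 ▸ h)
    by_cases h2 : p = (γ ^ i) y
    · right
      refine hfix j p ?_ ?_ ?_
      · intro h; exact nxy j i (h2 ▸ h).symm
      · intro h; exact hij (inj_aux γ ℓ hℓ hγ y hgy i j hi hj (h2 ▸ h))
      · intro h; exact nyz i j (h2 ▸ h)
    by_cases h3 : p = (γ ^ i) z
    · right
      refine hfix j p ?_ ?_ ?_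
      · intro h; exact nxz j i (h3 ▸ h).symm
      · intro h; exact nyz j i (h3 ▸ h).symm
      · intro h; exact hij (inj_aux γ ℓ hℓ hγ z hgz i j hi hj (h3 ▸ h))
    left
    exact hfix i p h1 h2 h3
  set l : List (Perm Ω) := (List.range ℓ).map fun j => γ ^ j * τ * (γ ^ j)⁻¹ with hl
  have hpw : l.Pairwise Equiv.Perm.Disjoint := by
    rw [hl, List.pairwise_map]
    refine List.Pairwise.imp_of_mem ?_ List.pairwise_lt_range
    intro a b ha hb hab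
    exact hdisj a (List.mem_range.mp ha) b (List.mem_range.mp hb) (by omega)
  have hmem : ∀ j < ℓ, γ ^ j * τ * (γ ^ j)⁻¹ ∈ l := by
    intro j hj
    rw [hl]
    exact List.mem_map.mpr ⟨j, List.mem_range.mpr hj, rfl⟩
  have hact : ∀ (p : Ω), τ p ≠ p → ∀ j : ℕ, l.prod ((γ ^ j) p) = (γ ^ j) (τ p) := by
    intro p hp j
    have hmod : γ ^ j = γ ^ (j % ℓ) := by
      conv_lhs => rw [← Nat.div_add_mod j ℓ, pow_add, pow_mul, hγ, one_pow, one_mul]
    rw [hmod]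
    have hj : j % ℓ < ℓ := Nat.mod_lt _ hℓ0
    have hsup : (γ ^ (j % ℓ)) p ∈ (γ ^ (j % ℓ) * τ * (γ ^ (j % ℓ))⁻¹).support := by
      rw [Equiv.Perm.mem_support, hconj]
      intro h
      exact hp ((γ ^ (j % ℓ)).injective h)
    rw [← Equiv.Perm.eq_on_support_mem_disjoint (hmem _ hj) hpw _ hsup, hconj]
  have hTx : ∀ j : ℕ, l.prod ((γ ^ j) x) = (γ ^ j) y := by
    intro j; rw [hact x (by rw [tx]; exact exy.symm) j, tx]
  have hTy : ∀ j : ℕ, l.prod ((γ ^ j) y) = (γ ^ j) z := by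
    intro j; rw [hact y (by rw [ty]; exact eyz.symm) j, ty]
  have hTz : ∀ j : ℕ, l.prod ((γ ^ j) z) = (γ ^ j) x := by
    intro j; rw [hact z (by rw [tz]; exact exz) j, tz]
  have hT : ∀ q, q ∉ c₁.support → q ∉ c₂.support → q ∉ c₃.support → l.prod q = q := by
    intro q h1 h2 h3
    apply prod_fix
    intro f hf
    rw [hl, List.mem_map] at hf
    obtain ⟨j, -, rfl⟩ := hf
    refine hfix j q ?_ ?_ ?_
    · intro h; exact h1 ((hs1 q).mpr ⟨j, h.symm⟩)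
    · intro h; exact h2 ((hs2 q).mpr ⟨j, h.symm⟩)
    · intro h; exact h3 ((hs3 q).mpr ⟨j, h.symm⟩)
  refine ⟨τ, l.prod, hτ3, hdisj, rfl, ?_, ?_, ?_, ?_⟩
  · exact conj_aux γ l.prod c₁ c₂ c₃ x y z hs1 hs2 hs3 ha1 ha2 hTx hTy hTz hT D12 D23
  · exact conj_aux γ l.prod c₂ c₃ c₁ y z x hs2 hs3 hs1 ha2 ha3 hTy hTz hTx
      (fun q a b c => hT q c a b) D23 D13.symm
  · exact conj_aux γ l.prod c₃ c₁ c₂ z x y hs3 hs1 hs2 ha3 ha1 hTz hTx hTy
      (fun q a b c => hT q b c a) D13.symm D12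
  · intro c hc n1 n2 n3
    rw [mul_inv_eq_iff_eq_mul]
    have E1 := Equiv.Perm.cycleFactorsFinset_pairwise_disjoint γ hc hc1 n1
    have E2 := Equiv.Perm.cycleFactorsFinset_pairwise_disjoint γ hc hc2 n2
    have E3 := Equiv.Perm.cycleFactorsFinset_pairwise_disjoint γ hc hc3 n3
    have hTc : ∀ q ∈ c.support, l.prod q = q := by
      intro q hq
      exact hT q (fun h => dis E1 q hq h) (fun h => dis E2 q hq h) (fun h => dis E3 q hq h)
    have hcT : ∀ q, q ∉ c.support → l.prod q ∉ c.support := by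
      intro q hq hq'
      apply hq
      have := hTc _ hq'
      have h2 : l.prod q = q := l.prod.injective this
      rw [h2] at hq'
      exact hq'
    ext q
    rw [Equiv.Perm.mul_apply, Equiv.Perm.mul_apply]
    by_cases hq : q ∈ c.support
    · rw [hTc q hq, hTc (c q) (Equiv.Perm.apply_mem_support.mpr hq)]
    · rw [Equiv.Perm.notMem_support.mp hq, Equiv.Perm.notMem_support.mp (hcT q hq)]

end Pool.Agent.H69.NS
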